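import Pool.Agent.Y372.UF.Stm

set_option autoImplicit false

/-!
Project UF, job CLO: closed form of the sum on the circle.
-/

namespace Pool.Agent.Y340.UF

open Polynomial Pool.Agent.Y372.UF

lemma geom2 (u : ℂ) (m : ℕ) :
    (1 - u) ^ 2 * ∑ j ∈ Finset.range m, ((m : ℂ) - j) * u ^ j = m * (1 - u) - u * (1 - u ^ m) := by
  induction m with
  | zero => simp
  | succ m ih =>
    rw [Finset.sum_range_succ]
    have h1 : ∑ j ∈ Finset.range m, (((m + 1 : ℕ) : ℂ) - j) * u ^ j =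
        ∑ j ∈ Finset.range m, ((m : ℂ) - j) * u ^ j + ∑ j ∈ Finset.range m, u ^ j := by
      rw [← Finset.sum_add_distrib]
      refine Finset.sum_congr rfl fun j _ => ?_
      push_cast
      ring
    rw [h1]
    have h2 := mul_neg_geom_sum u m
    push_cast
    linear_combination ih + (1 - u) * h2

lemma ph_pos {M : ℕ} (hM : 3 ≤ M) : 0 < ph M := by
  unfold ph
  have : (0:ℝ) < M := by exact_mod_cast (by omega : 0 < M)
  positivity

lemma ph_le {M : ℕ} (hM : 3 ≤ M) : ph M ≤ Real.pi / 3 := by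
  unfold ph
  have h3 : (3:ℝ) ≤ M := by exact_mod_cast hM
  have := Real.pi_pos
  gcongr

/-- the coefficients in terms of the double angle -/
lemma ac_eq {M : ℕ} (hM : 3 ≤ M) (j : ℕ) :
    (M : ℝ) * Real.cos (ph M) * Real.sin (ph M) ^ 2 * ac M j =
      Real.cos (ph M) / 2 * (1 - Real.cos (2 * (j * ph M))) +
        Real.sin (ph M) / 2 * ((M : ℝ) - j) * Real.sin (2 * (j * ph M)) := by
  have h1 := ph_pos hM
  have h2 := ph_le hM
  have hpi := Real.pi_pos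
  have hM0 : (M : ℝ) ≠ 0 := by
    have : M ≠ 0 := by omega
    exact_mod_cast this
  have hc : Real.cos (ph M) ≠ 0 := (Real.cos_pos_of_mem_Ioo ⟨by linarith, by linarith⟩).ne'
  have hs : Real.sin (ph M) ≠ 0 := (Real.sin_pos_of_pos_of_lt_pi h1 (by linarith)).ne'
  rw [Real.cos_two_mul, Real.sin_two_mul]
  unfold ac
  have h3 := Real.sin_sq_add_cos_sq ((j : ℝ) * ph M)
  field_simp
  linear_combination (2 * Real.cos (ph M)) * h3

lemma main_id {M : ℕ} (hM : 3 ≤ M) (z : ℂ) :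
    (1 - z) * (1 - 2 * (Real.cos (2 * ph M) : ℂ) * z + z ^ 2) ^ 2 *
      ((M : ℂ) * ∑ j ∈ Finset.range M, (ac M j : ℂ) * z ^ j) =
    (M : ℂ) * (1 - z) * z * (1 - 2 * (Real.cos (2 * ph M) : ℂ) * z + z ^ 2) +
      4 * (Real.sin (ph M) : ℂ) ^ 2 * z ^ 2 * (1 + z) * (1 - z ^ M) := by
  have h1 := ph_pos hM
  have h2 := ph_le hM
  have hpi := Real.pi_pos
  have hM0 : (M : ℝ) ≠ 0 := by
    have : M ≠ 0 := by omega
    exact_mod_cast this
  have hc : Real.cos (ph M) ≠ 0 := (Real.cos_pos_of_mem_Ioo ⟨by linarith, by linarith⟩).ne'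
  have hs : Real.sin (ph M) ≠ 0 := (Real.sin_pos_of_pos_of_lt_pi h1 (by linarith)).ne'
  set k : ℂ := (Real.cos (ph M) : ℂ) with hk
  set s : ℂ := (Real.sin (ph M) : ℂ) with hsd
  have hk0 : k ≠ 0 := by rw [hk]; exact_mod_cast hc
  have hs0 : s ≠ 0 := by rw [hsd]; exact_mod_cast hs
  have hks : s ^ 2 + k ^ 2 = 1 := by
    rw [hk, hsd]
    exact_mod_cast Real.sin_sq_add_cos_sq (ph M)
  have hcc : (Real.cos (2 * ph M) : ℂ) = 1 - 2 * s ^ 2 := by
    have : Real.cos (2 * ph M) = 1 - 2 * Real.sin (ph M) ^ 2 := by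
      rw [Real.cos_two_mul]
      have := Real.sin_sq_add_cos_sq (ph M)
      linarith
    rw [this, hsd]
    push_cast
    ring
  rw [hcc]
  -- the roots of unity
  set W : ℂ := Complex.exp (((2 * ph M : ℝ) : ℂ) * Complex.I) with hW
  set W' : ℂ := Complex.exp (-(((2 * ph M : ℝ) : ℂ) * Complex.I)) with hW'
  have hWW : W * W' = 1 := by rw [hW, hW', ← Complex.exp_add]; simp
  have hWp : W + W' = 2 * (1 - 2 * s ^ 2) := by
    rw [← hcc, hW, hW', Complex.ofReal_cos, Complex.cos]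
    rw [neg_mul]
    ring
  have hWm : W - W' = 2 * Complex.I * (2 * s * k) := by
    have h3 : (Real.sin (2 * ph M) : ℂ) = 2 * s * k := by
      rw [Real.sin_two_mul, hk, hsd]
      push_cast
      ring
    rw [← h3, hW, hW', Complex.ofReal_sin, Complex.sin]
    rw [neg_mul]
    have := Complex.I_sq
    linear_combination (Complex.exp (((2 * ph M : ℝ) : ℂ) * Complex.I) -
      Complex.exp (-(((2 * ph M : ℝ) : ℂ) * Complex.I))) * this
  have hpow : ∀ j : ℕ, W ^ j = Complex.exp (((2 * (j * ph M) : ℝ) : ℂ) * Complex.I) := by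
    intro j
    rw [hW, ← Complex.exp_nat_mul]
    congr 1
    push_cast
    ring
  have hpow' : ∀ j : ℕ, W' ^ j = Complex.exp (-(((2 * (j * ph M) : ℝ) : ℂ) * Complex.I)) := by
    intro j
    rw [hW', ← Complex.exp_nat_mul]
    congr 1
    push_cast
    ring
  have hMp : ((2 * (M * ph M) : ℝ) : ℂ) * Complex.I = 2 * Real.pi * Complex.I := by
    unfold ph
    have : 2 * ((M : ℝ) * (Real.pi / M)) = 2 * Real.pi := by field_simp
    rw [this]
    push_cast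
    ring
  have hWM : W ^ M = 1 := by rw [hpow, hMp, Complex.exp_two_pi_mul_I]
  have hWM' : W' ^ M = 1 := by rw [hpow', hMp, Complex.exp_neg, Complex.exp_two_pi_mul_I, inv_one]
  have hco : ∀ j : ℕ, (M : ℂ) * k * s ^ 2 * (ac M j : ℂ) =
      k / 2 * (1 - (W ^ j + W' ^ j) / 2) + s / 2 * ((M : ℂ) - j) * ((W' ^ j - W ^ j) * Complex.I / 2) := by
    intro j
    have h3 := congrArg (fun x : ℝ => (x : ℂ)) (ac_eq hM j)
    have h4 : (Real.cos (2 * (j * ph M)) : ℂ) = (W ^ j + W' ^ j) / 2 := by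
      rw [hpow, hpow', Complex.ofReal_cos, Complex.cos, neg_mul]
    have h5 : (Real.sin (2 * (j * ph M)) : ℂ) = (W' ^ j - W ^ j) * Complex.I / 2 := by
      rw [hpow, hpow', Complex.ofReal_sin, Complex.sin, neg_mul]
    have h6 : ((Real.cos (ph M) / 2 * (1 - Real.cos (2 * (j * ph M))) +
        Real.sin (ph M) / 2 * ((M : ℝ) - j) * Real.sin (2 * (j * ph M)) : ℝ) : ℂ) =
        k / 2 * (1 - (Real.cos (2 * (j * ph M)) : ℂ)) + s / 2 * ((M : ℂ) - j) * (Real.sin (2 * (j * ph M)) : ℂ) := by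
      rw [hk, hsd]
      push_cast
      ring
    rw [h6, h4, h5] at h3
    rw [← h3, hk, hsd]
    push_cast
    ring
  have hsum : (M : ℂ) * k * s ^ 2 * ∑ j ∈ Finset.range M, (ac M j : ℂ) * z ^ j =
      k / 2 * (∑ j ∈ Finset.range M, z ^ j - (∑ j ∈ Finset.range M, (W * z) ^ j +
        ∑ j ∈ Finset.range M, (W' * z) ^ j) / 2) +
      s * Complex.I / 4 * (∑ j ∈ Finset.range M, ((M : ℂ) - j) * (W' * z) ^ j -
        ∑ j ∈ Finset.range M, ((M : ℂ) - j) * (W * z) ^ j) := by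
    rw [Finset.mul_sum]
    simp only [mul_sub, Finset.mul_sum, ← Finset.sum_add_distrib, add_div, mul_add, Finset.sum_div,
      ← Finset.sum_sub_distrib]
    refine Finset.sum_congr rfl fun j _ => ?_
    have h3 := hco j
    rw [mul_pow, mul_pow]
    linear_combination z ^ j * h3
  have g1 := mul_neg_geom_sum z M
  have g2 := mul_neg_geom_sum (W * z) M
  have g3 := mul_neg_geom_sum (W' * z) M
  have g4 := geom2 (W * z) M
  have g5 := geom2 (W' * z) M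
  rw [mul_pow, hWM, one_mul] at g2
  rw [mul_pow, hWM', one_mul] at g3
  rw [mul_pow W z M, hWM, one_mul] at g4
  rw [mul_pow W' z M, hWM', one_mul] at g5
  obtain ⟨S, hS⟩ : ∃ S : ℂ, S = ∑ j ∈ Finset.range M, (ac M j : ℂ) * z ^ j := ⟨_, rfl⟩
  obtain ⟨G1, hG1⟩ : ∃ S : ℂ, S = ∑ j ∈ Finset.range M, z ^ j := ⟨_, rfl⟩
  obtain ⟨G2, hG2⟩ : ∃ S : ℂ, S = ∑ j ∈ Finset.range M, (W * z) ^ j := ⟨_, rfl⟩
  obtain ⟨G3, hG3⟩ : ∃ S : ℂ, S = ∑ j ∈ Finset.range M, (W' * z) ^ j := ⟨_, rfl⟩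
  obtain ⟨G4, hG4⟩ : ∃ S : ℂ, S = ∑ j ∈ Finset.range M, ((M : ℂ) - j) * (W * z) ^ j := ⟨_, rfl⟩
  obtain ⟨G5, hG5⟩ : ∃ S : ℂ, S = ∑ j ∈ Finset.range M, ((M : ℂ) - j) * (W' * z) ^ j := ⟨_, rfl⟩
  obtain ⟨Q, hQ⟩ : ∃ Q : ℂ, Q = z ^ M := ⟨_, rfl⟩
  rw [← hS, ← hG1, ← hG2, ← hG3, ← hG4, ← hG5] at hsum
  rw [← hG1, ← hQ] at g1
  rw [← hG2, ← hQ] at g2
  rw [← hG3, ← hQ] at g3
  rw [← hG4, ← hQ] at g4
  rw [← hG5, ← hQ] at g5
  rw [← hS, ← hQ]
  have hD : 1 - 2 * (1 - 2 * s ^ 2) * z + z ^ 2 = (1 - W * z) * (1 - W' * z) := by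
    linear_combination z * hWp - z ^ 2 * hWW
  have hcan : k * s ^ 2 ≠ 0 := mul_ne_zero hk0 (pow_ne_zero 2 hs0)
  apply mul_left_cancel₀ hcan
  -- part one: the sums
  have p1 : (1 - z) * ((1 - W * z) * (1 - W' * z)) ^ 2 * (M * k * s ^ 2 * S) =
      k / 2 * (((1 - W * z) * (1 - W' * z)) ^ 2 * (1 - Q) -
        (1 - z) * ((1 - W * z) * (1 - W' * z) ^ 2 + (1 - W * z) ^ 2 * (1 - W' * z)) * (1 - Q) / 2) +
      s * Complex.I / 4 * (1 - z) * ((1 - W * z) ^ 2 * (M * (1 - W' * z) - W' * z * (1 - Q)) -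
        (1 - W' * z) ^ 2 * (M * (1 - W * z) - W * z * (1 - Q))) := by
    rw [hsum]
    linear_combination (k / 2 * ((1 - W * z) * (1 - W' * z)) ^ 2) * g1 -
      (k / 4 * (1 - z) * (1 - W * z) * (1 - W' * z) ^ 2) * g2 -
      (k / 4 * (1 - z) * (1 - W * z) ^ 2 * (1 - W' * z)) * g3 -
      (s * Complex.I / 4 * (1 - z) * (1 - W' * z) ^ 2) * g4 +
      (s * Complex.I / 4 * (1 - z) * (1 - W * z) ^ 2) * g5
  -- part two: simplification
  have e1 : (1 - W * z) ^ 2 * (1 - W' * z) - (1 - W' * z) ^ 2 * (1 - W * z) =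
      (1 - W * z) * (1 - W' * z) * (-(z * (2 * Complex.I * (2 * s * k)))) := by
    linear_combination (-(1 - W * z) * (1 - W' * z) * z) * hWm
  have e2 : (1 - W * z) ^ 2 * W' - (1 - W' * z) ^ 2 * W =
      -(2 * Complex.I * (2 * s * k)) * (1 - z ^ 2) := by
    linear_combination (W * z ^ 2 - W' * z ^ 2) * hWW - (1 - z ^ 2) * hWm
  have e3 : (1 - W * z) + (1 - W' * z) = 2 - 2 * (1 - 2 * s ^ 2) * z := by
    linear_combination (-z) * hWp
  have hI : Complex.I ^ 2 = -1 := Complex.I_sq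
  rw [hD]
  have hD' := hD.symm
  obtain ⟨A, hA⟩ : ∃ A : ℂ, A = 1 - W * z := ⟨_, rfl⟩
  obtain ⟨B, hB⟩ : ∃ B : ℂ, B = 1 - W' * z := ⟨_, rfl⟩
  rw [← hA, ← hB] at p1 e1 e2 e3 hD'
  rw [← hA, ← hB]
  have p2 : k * s ^ 2 * ((1 - z) * (A * B) ^ 2 * (M * S)) =
      k / 2 * ((A * B) ^ 2 * (1 - Q) - (1 - z) * (A * B * (A + B)) * (1 - Q) / 2) +
      s * Complex.I / 4 * (1 - z) * (M * (A ^ 2 * B - B ^ 2 * A) -
        z * (1 - Q) * (A ^ 2 * W' - B ^ 2 * W)) := by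
    linear_combination p1
  rw [p2, e1, e2, e3]
  obtain ⟨D, hDD⟩ : ∃ D : ℂ, D = A * B := ⟨_, rfl⟩
  rw [← hDD] at hD' ⊢
  linear_combination (-(M : ℂ) * s ^ 2 * k * (1 - z) * z * D + s ^ 2 * k * (1 - z) * z * (1 - Q) * (1 - z ^ 2)) * hI +
    (k / 2 * (1 - Q) * D + k / 2 * (1 - Q) * (2 * s ^ 2 * z * (1 + z)) ) * hD' + 0 * hks

theorem t_CLO : S_CLO := by
  intro M hM t
  have hM0 : (M : ℂ) ≠ 0 := by
    have : M ≠ 0 := by omega
    exact_mod_cast this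
  have hS : (aeval (Complex.exp ((t : ℂ) * Complex.I)) (Fp M) : ℂ) =
      ∑ j ∈ Finset.range M, (ac M j : ℂ) * Complex.exp ((t : ℂ) * Complex.I) ^ j := by
    unfold Fp
    rw [map_sum]
    refine Finset.sum_congr rfl fun j _ => ?_
    rw [map_mul, aeval_C, map_pow, aeval_X]
    rfl
  rw [hS]
  have h1 := main_id hM (Complex.exp ((t : ℂ) * Complex.I))
  obtain ⟨S, hS'⟩ : ∃ S : ℂ, S = ∑ j ∈ Finset.range M, (ac M j : ℂ) * Complex.exp ((t : ℂ) * Complex.I) ^ j :=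
    ⟨_, rfl⟩
  rw [← hS'] at h1 ⊢
  set E : ℂ := Complex.exp (((t / 2 : ℝ) : ℂ) * Complex.I) with hE
  set E' : ℂ := Complex.exp (-(((t / 2 : ℝ) : ℂ) * Complex.I)) with hE'
  set F : ℂ := Complex.exp ((((M : ℝ) * t / 2 : ℝ) : ℂ) * Complex.I) with hF
  set F' : ℂ := Complex.exp (-((((M : ℝ) * t / 2 : ℝ) : ℂ) * Complex.I)) with hF'
  have hEE : E * E' = 1 := by rw [hE, hE', ← Complex.exp_add]; simp
  have hFF : F * F' = 1 := by rw [hF, hF', ← Complex.exp_add]; simp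
  have hZ : Complex.exp ((t : ℂ) * Complex.I) = E ^ 2 := by
    rw [hE, ← Complex.exp_nat_mul]
    congr 1
    push_cast
    ring
  have hZM : Complex.exp ((t : ℂ) * Complex.I) ^ M = F ^ 2 := by
    rw [hF, ← Complex.exp_nat_mul, ← Complex.exp_nat_mul]
    congr 1
    push_cast
    ring
  have hcos : (Real.cos (t / 2) : ℂ) = (E + E') / 2 := by
    rw [hE, hE', Complex.ofReal_cos, Complex.cos, neg_mul]
  have hsin : (Real.sin (t / 2) : ℂ) = (E' - E) * Complex.I / 2 := by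
    rw [hE, hE', Complex.ofReal_sin, Complex.sin, neg_mul]
  have hsinM : (Real.sin ((M : ℝ) * t / 2) : ℂ) = (F' - F) * Complex.I / 2 := by
    rw [hF, hF', Complex.ofReal_sin, Complex.sin, neg_mul]
  have hcost : (Real.cos t : ℂ) = (E ^ 2 + E' ^ 2) / 2 := by
    have : E' ^ 2 = Complex.exp (-((t : ℂ) * Complex.I)) := by
      rw [hE', ← Complex.exp_nat_mul]
      congr 1
      push_cast
      ring
    rw [this, ← hZ, Complex.ofReal_cos, Complex.cos, neg_mul]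
  rw [hZM, hZ] at h1
  have hE0 : E ≠ 0 := Complex.exp_ne_zero _
  have hI := Complex.I_sq
  have hI0 := Complex.I_ne_zero
  obtain ⟨c, hc⟩ : ∃ c : ℂ, c = (Real.cos (2 * ph M) : ℂ) := ⟨_, rfl⟩
  obtain ⟨s, hs⟩ : ∃ s : ℂ, s = (Real.sin (ph M) : ℂ) := ⟨_, rfl⟩
  rw [← hc, ← hs] at h1
  obtain ⟨σ, hσ⟩ : ∃ σ : ℂ, σ = (Real.sin (t / 2) : ℂ) := ⟨_, rfl⟩
  obtain ⟨κ, hκ⟩ : ∃ κ : ℂ, κ = (Real.cos (t / 2) : ℂ) := ⟨_, rfl⟩
  obtain ⟨μ, hμ⟩ : ∃ μ : ℂ, μ = (Real.sin ((M : ℝ) * t / 2) : ℂ) := ⟨_, rfl⟩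
  obtain ⟨x, hx⟩ : ∃ x : ℂ, x = (Real.cos t : ℂ) - c := ⟨_, rfl⟩
  have goal1 : σ * x ^ 2 * S = σ * x / 2 + 2 * s ^ 2 / M * κ * μ * F := by
    have d1 : 1 - 2 * c * E ^ 2 + (E ^ 2) ^ 2 = E ^ 2 * (2 * x) := by
      rw [hx, hcost]
      linear_combination (-(E * E' + 1)) * hEE
    have d2 : 1 - E ^ 2 = -2 * Complex.I * σ * E := by
      rw [hσ, hsin]
      linear_combination (-(1:ℂ)) * hEE + (E * (E' - E)) * hI
    have d3 : 1 + E ^ 2 = 2 * κ * E := by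
      rw [hκ, hcos]
      linear_combination (-(1:ℂ)) * hEE
    have d4 : 1 - F ^ 2 = -2 * Complex.I * μ * F := by
      rw [hμ, hsinM]
      linear_combination (-(1:ℂ)) * hFF + (F * (F' - F)) * hI
    rw [d1, d2, d3, d4] at h1
    have hne : -2 * Complex.I * E * (E ^ 2) ^ 2 * 4 * M ≠ 0 := by
      simp only [ne_eq, mul_eq_zero, neg_eq_zero, OfNat.ofNat_ne_zero, hI0, hE0, hM0, or_self,
        pow_eq_zero_iff, not_false_eq_true]
    apply mul_left_cancel₀ hne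
    have hMM : (M : ℂ) * (2 * s ^ 2 / M) = 2 * s ^ 2 := by field_simp
    linear_combination h1 + (8 * Complex.I * E ^ 5 * κ * μ * F) * hMM
  rw [hσ, hκ, hμ, hx, hs, hc] at goal1
  have e : (((Real.sin (t / 2) * (Real.cos t - Real.cos (2 * ph M)) ^ 2 : ℝ)) : ℂ) =
      (Real.sin (t / 2) : ℂ) * ((Real.cos t : ℂ) - (Real.cos (2 * ph M) : ℂ)) ^ 2 := by push_cast; ring
  rw [e, goal1]
  push_cast
  ring

end Pool.Agent.Y340.UF
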